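import Pool.Agent.Helper61.LF.GoalsN

/-! # MP_c65973_gt, packet LF-FRO: periods modulo the powers of an ideal -/

set_option autoImplicit false

namespace Pool.Agent.Helper24.LF.FRO

open Pool.Agent.Helper61.LF

universe u

theorem t : S_FRO.{u} := by
  intro A _ P _ _ _ τ p _ 𝔪 hfin R hR
  have hp : p.Prime := Fact.out
  have hτJ : (𝔪 • ⊤ : Submodule A P) ≤ (𝔪 • ⊤ : Submodule A P).comap τ := by
    rw [← Submodule.map_le_iff_le_comap, Submodule.map_smul'']
    exact Submodule.smul_mono le_rfl le_top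
  -- `P ⧸ 𝔪 P` is finite
  have hQ1 : Module.Finite (A ⧸ 𝔪) (P ⧸ (𝔪 • ⊤ : Submodule A P)) :=
    Module.Finite.of_restrictScalars_finite A _ _
  have hQ : Finite (P ⧸ (𝔪 • ⊤ : Submodule A P)) := Module.finite_of_finite (A ⧸ 𝔪)
  -- two powers are equal
  set τ' : Module.End A (P ⧸ (𝔪 • ⊤ : Submodule A P)) :=
    Submodule.mapQ _ _ τ hτJ with hτ'
  have : Finite (Module.End A (P ⧸ (𝔪 • ⊤ : Submodule A P))) := DFunLike.finite _
  have hpow : ∀ (n : ℕ) (x : P), (τ' ^ n) (Submodule.Quotient.mk x) =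
      Submodule.Quotient.mk ((τ ^ n) x) := by
    intro n
    induction n with
    | zero => intro x; simp
    | succ n ih =>
      intro x
      rw [pow_succ, pow_succ, Module.End.mul_apply, Module.End.mul_apply, hτ',
        Submodule.mapQ_apply, ← hτ', ih]
  obtain ⟨n0, N0, hN0, hg0⟩ : ∃ n0 N0 : ℕ, 0 < N0 ∧ τ' ^ (n0 + N0) = τ' ^ n0 := by
    obtain ⟨a, b, hab, h⟩ := Finite.exists_ne_map_eq_of_infinite (fun n : ℕ => τ' ^ n)
    rcases lt_or_gt_of_ne hab with h1 | h1
    · exact ⟨a, b - a, by omega, by rw [show a + (b - a) = b by omega]; exact h.symm⟩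
    · exact ⟨b, a - b, by omega, by rw [show b + (a - b) = a by omega]; exact h⟩
  set g : Module.End A P := τ ^ (n0 + N0) - τ ^ n0 with hg
  have hg1 : ∀ x, g x ∈ (𝔪 • ⊤ : Submodule A P) := by
    intro x
    rw [hg, LinearMap.sub_apply, ← Submodule.Quotient.eq, ← hpow, ← hpow, hg0]
  have hgm : ∀ (m : ℕ) (x : P), (g ^ m) x ∈ (𝔪 ^ m • ⊤ : Submodule A P) := by
    intro m
    induction m with
    | zero => intro x; simp
    | succ m ih =>
      intro x
      have e1 : (g ^ (m + 1)) x = g ((g ^ m) x) := by rw [pow_succ' g m, Module.End.mul_apply]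
      rw [e1]
      have h1 : g ((g ^ m) x) ∈ (𝔪 ^ m • ⊤ : Submodule A P).map g :=
        Submodule.mem_map_of_mem (ih x)
      rw [Submodule.map_smul''] at h1
      have h2 : (⊤ : Submodule A P).map g ≤ 𝔪 • ⊤ := by
        rintro _ ⟨y, -, rfl⟩
        exact hg1 y
      have h3 := Submodule.smul_mono (le_refl (𝔪 ^ m)) h2 h1
      rwa [← mul_smul, ← pow_succ] at h3
  refine ⟨(n0 + N0) * p, fun m n x => ?_⟩
  set k := Nat.log p (m + 1) + 1 with hk
  have hq1 : m < p ^ k := by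
    have h0 : m + 1 < p ^ (Nat.log p (m + 1) + 1) := Nat.lt_pow_succ_log_self hp.one_lt (m + 1)
    rw [← hk] at h0
    omega
  have hq2 : p ^ k ≤ p * (m + 1) := by
    rw [hk, pow_succ, mul_comm]
    exact Nat.mul_le_mul_left _ (Nat.pow_log_le_self p (by omega))
  have key : ∀ y : P, (τ ^ ((n0 + N0) * p ^ k)) y - (τ ^ (n0 * p ^ k)) y ∈
      R ⊔ (𝔪 ^ m • ⊤ : Submodule A P) := by
    intro y
    have hc : Commute g (τ ^ n0) := by
      rw [hg]
      exact ((Commute.refl τ).pow_pow _ _).sub_left ((Commute.refl τ).pow_pow _ _)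
    obtain ⟨r, hr⟩ := hc.exists_add_pow_prime_pow_eq hp k
    have h1 : g + τ ^ n0 = τ ^ (n0 + N0) := by rw [hg]; abel
    rw [h1, ← pow_mul, ← pow_mul] at hr
    have h2 : (τ ^ ((n0 + N0) * p ^ k)) y - (τ ^ (n0 * p ^ k)) y =
        p • ((g * τ ^ n0 * r) y) + (g ^ p ^ k) y := by
      rw [hr]
      simp only [LinearMap.add_apply, Module.End.mul_apply, Module.End.natCast_apply]
      abel
    rw [h2]
    refine Submodule.add_mem_sup (hR _) ?_
    have h3 : (𝔪 ^ p ^ k • ⊤ : Submodule A P) ≤ 𝔪 ^ m • ⊤ :=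
      Submodule.smul_mono (Ideal.pow_le_pow_right hq1.le) le_rfl
    exact h3 (hgm _ y)
  have main : ∀ n : ℕ, ∃ n' < (n0 + N0) * p ^ k, (τ ^ n) x - (τ ^ n') x ∈
      R ⊔ (𝔪 ^ m • ⊤ : Submodule A P) := by
    intro n
    induction n using Nat.strong_induction_on with
    | _ n ih =>
      by_cases hn : n < (n0 + N0) * p ^ k
      · exact ⟨n, hn, by simp⟩
      · obtain ⟨s, hs⟩ := Nat.exists_eq_add_of_le (not_lt.1 hn)
        have hlt : n0 * p ^ k + s < n := by
          rw [hs, add_mul]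
          have : 0 < N0 * p ^ k := Nat.mul_pos hN0 (pow_pos hp.pos _)
          omega
        obtain ⟨n', h1, h2⟩ := ih _ hlt
        refine ⟨n', h1, ?_⟩
        have h3 := key ((τ ^ s) x)
        rw [← Module.End.mul_apply, ← Module.End.mul_apply, ← pow_add, ← pow_add, ← hs] at h3
        have h4 := Submodule.add_mem _ h3 h2
        rwa [sub_add_sub_cancel] at h4
  obtain ⟨n', h1, h2⟩ := main n
  refine ⟨n', lt_of_lt_of_le h1 ?_, h2⟩
  rw [mul_assoc]
  exact Nat.mul_le_mul_left _ hq2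

end Pool.Agent.Helper24.LF.FRO
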